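import Mathlib

set_option autoImplicit false

namespace Pool.Agent.Results.MP_d05de0_co.Three

open MvPolynomial

/-- `Q` has degree-1 rank at most `1`: it is a product of polynomials of degree at most `1`. -/
def RankOne {p n : ℕ} (Q : MvPolynomial (Fin n) (ZMod p)) : Prop :=
  ∃ l : List (MvPolynomial (Fin n) (ZMod p)), (∀ f ∈ l, f.totalDegree ≤ 1) ∧ l.prod = Q

/-- `Q` is a sum of `k` polynomials of degree-1 rank at most `1` and degree at most `deg Q`. -/
def SumOf {p n : ℕ} (k : ℕ) (Q : MvPolynomial (Fin n) (ZMod p)) : Prop :=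
  ∃ R : Fin k → MvPolynomial (Fin n) (ZMod p),
    (∀ i, RankOne (R i) ∧ (R i).totalDegree ≤ Q.totalDegree) ∧ ∑ i, R i = Q

theorem two {n : ℕ} (l : List (MvPolynomial (Fin n) (ZMod 3))) (h : ∀ f ∈ l, f.totalDegree ≤ 1)
    (h2 : l.prod.totalDegree ≤ 2) :
    ∃ a b : MvPolynomial (Fin n) (ZMod 3), a.totalDegree ≤ 1 ∧ b.totalDegree ≤ 1 ∧ l.prod = a * b := by
  have : Fact (Nat.Prime 3) := ⟨by norm_num⟩
  induction l with
  | nil => exact ⟨1, 1, by simp, by simp, by simp⟩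
  | cons f l ih =>
    rw [List.prod_cons] at h2 ⊢
    by_cases z : f * l.prod = 0
    · exact ⟨0, 0, by simp, by simp, by simp [z]⟩
    have z1 := left_ne_zero_of_mul z
    have z2 := right_ne_zero_of_mul z
    rw [totalDegree_mul_of_isDomain z1 z2] at h2
    obtain ⟨a, b, ha, hb, e⟩ := ih (fun g hg => h g (List.mem_cons_of_mem _ hg)) (by omega)
    rw [e] at z2 h2 ⊢
    rw [totalDegree_mul_of_isDomain (left_ne_zero_of_mul z2) (right_ne_zero_of_mul z2)] at h2
    have hf := h f List.mem_cons_self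
    by_cases c : f.totalDegree + a.totalDegree ≤ 1
    · exact ⟨f * a, b, (totalDegree_mul _ _).trans c, hb, by ring⟩
    · exact ⟨a, f * b, ha, (totalDegree_mul _ _).trans (by omega), by ring⟩

theorem aff (f : MvPolynomial (Fin 3) (ZMod 3)) (hf : f.totalDegree ≤ 1) :
    ∃ a b c d : ZMod 3, ∀ x : Fin 3 → ZMod 3, eval x f = a + b * x 0 + c * x 1 + d * x 2 := by
  rw [f.as_sum]
  refine Finset.sum_induction _ (fun g => ∃ a b c d : ZMod 3, ∀ x : Fin 3 → ZMod 3,
    eval x g = a + b * x 0 + c * x 1 + d * x 2) ?_ ⟨0, 0, 0, 0, by simp⟩ ?_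
  · rintro g h ⟨a, b, c, d, e⟩ ⟨a', b', c', d', e'⟩
    exact ⟨a + a', b + b', c + c', d + d', fun x => by rw [map_add, e, e']; ring⟩
  · intro m hm
    have := (le_totalDegree hm).trans hf
    rw [Finsupp.sum_fintype _ _ (by simp), Fin.sum_univ_three] at this
    simp only [eval_monomial, Finsupp.prod_fintype _ _ (fun i => pow_zero _), Fin.prod_univ_three]
    have : (m 0 = 0 ∧ m 1 = 0 ∧ m 2 = 0) ∨ (m 0 = 1 ∧ m 1 = 0 ∧ m 2 = 0) ∨
        (m 0 = 0 ∧ m 1 = 1 ∧ m 2 = 0) ∨ (m 0 = 0 ∧ m 1 = 0 ∧ m 2 = 1) := by omega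
    rcases this with ⟨a, b, c⟩ | ⟨a, b, c⟩ | ⟨a, b, c⟩ | ⟨a, b, c⟩ <;> rw [a, b, c]
    exacts [⟨coeff m f, 0, 0, 0, by simp⟩, ⟨0, coeff m f, 0, 0, by simp⟩,
      ⟨0, 0, coeff m f, 0, by simp⟩, ⟨0, 0, 0, coeff m f, by simp⟩]

theorem key : ∀ k a b c d a' b' c' d' : ZMod 3, ¬ (-k = a * a' ∧ -k = (a + b) * (a' + b') ∧
    -k = (a + c) * (a' + c') ∧ 1 - k = (a + d) * (a' + d') ∧ 1 - k = (a + b + c) * (a' + b' + c') ∧
    -k = (a + b + d) * (a' + b' + d') ∧ 1 - k = (a + c + d) * (a' + c' + d') ∧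
    1 - k = (a + b + c + d) * (a' + b' + c' + d')) := by
  decide +kernel

noncomputable def P : MvPolynomial (Fin 3) (ZMod 3) := X 0 * X 1 - X 0 * X 2 + X 2

theorem deg_le : P.totalDegree ≤ 2 := by
  have h : ∀ i j : Fin 3, (X i * X j : MvPolynomial (Fin 3) (ZMod 3)).totalDegree ≤ 2 := fun i j =>
    (totalDegree_mul _ _).trans (by
      have := totalDegree_X (R := ZMod 3) i
      have := totalDegree_X (R := ZMod 3) j
      omega)
  refine (totalDegree_add _ _).trans (max_le ((totalDegree_sub _ _).trans (max_le (h _ _) (h _ _))) ?_)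
  rw [totalDegree_X]; omega

theorem result : ∃ (p : ℕ) (S : Set (ZMod p)) (n : ℕ) (P : MvPolynomial (Fin n) (ZMod p)),
    p.Prime ∧ 3 ≤ p ∧ S.Nonempty ∧ 1 ≤ n ∧ P.totalDegree = 2 ∧
    (∃ v : ZMod p, ∀ x : Fin n → ZMod p, (∀ i, x i ∈ S) → eval x P ≠ v) ∧
    ∀ (c : ZMod p) (P₀ : MvPolynomial (Fin n) (ZMod p)) (k : ℕ),
      P₀.totalDegree ≤ (P - C c).totalDegree →
      (∀ x : Fin n → ZMod p, (∀ i, x i ∈ S) → eval x P₀ = 0) →
      SumOf k (P - C c - P₀) → p - 1 ≤ k := by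
  have main : ∀ (c : ZMod 3) (P₀ a b : MvPolynomial (Fin 3) (ZMod 3)), a.totalDegree ≤ 1 →
      b.totalDegree ≤ 1 → (∀ x : Fin 3 → ZMod 3, (∀ i, x i ∈ ({0, 1} : Set (ZMod 3))) → eval x P₀ = 0) →
      P - C c - P₀ ≠ a * b := fun c P₀ a b ha hb h0 e => by
    obtain ⟨a0, a1, a2, a3, ea⟩ := aff a ha
    obtain ⟨b0, b1, b2, b3, eb⟩ := aff b hb
    have t : ∀ x y z : ZMod 3, x ∈ ({0, 1} : Set (ZMod 3)) → y ∈ ({0, 1} : Set (ZMod 3)) →
        z ∈ ({0, 1} : Set (ZMod 3)) → x * y - x * z + z - c =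
          (a0 + a1 * x + a2 * y + a3 * z) * (b0 + b1 * x + b2 * y + b3 * z) := fun x y z hx hy hz => by
      have := congrArg (eval ![x, y, z]) e
      rw [map_mul, ea, eb, map_sub, h0 _ (fun i => by fin_cases i <;> assumption)] at this
      simpa [P] using this
    refine key c a0 a1 a2 a3 b0 b1 b2 b3 ⟨?_, ?_, ?_, ?_, ?_, ?_, ?_, ?_⟩
    · simpa using t 0 0 0 (by simp) (by simp) (by simp)
    · simpa using t 1 0 0 (by simp) (by simp) (by simp)
    · simpa using t 0 1 0 (by simp) (by simp) (by simp)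
    · simpa using t 0 0 1 (by simp) (by simp) (by simp)
    · simpa using t 1 1 0 (by simp) (by simp) (by simp)
    · simpa using t 1 0 1 (by simp) (by simp) (by simp)
    · simpa using t 0 1 1 (by simp) (by simp) (by simp)
    · simpa using t 1 1 1 (by simp) (by simp) (by simp)
  refine ⟨3, {0, 1}, 3, P, by norm_num, le_rfl, ⟨0, by simp⟩, by norm_num, ?_, ⟨2, fun x hx => ?_⟩,
    fun c P₀ k hd h0 ⟨R, hR, e⟩ => ?_⟩
  · by_contra h
    exact main 0 0 P 1 (by have := deg_le; omega) (by simp) (by simp) (by simp)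
  · have a := hx 0
    have b := hx 1
    have c := hx 2
    simp only [Set.mem_insert_iff, Set.mem_singleton_iff] at a b c
    simp only [P, map_add, map_sub, map_mul, eval_X]
    rcases a with a | a <;> rcases b with b | b <;> rcases c with c | c <;> rw [a, b, c] <;> decide
  · have d1 : (P - C c).totalDegree ≤ 2 :=
      (totalDegree_sub _ _).trans (max_le deg_le (by rw [totalDegree_C]; omega))
    have d2 := (totalDegree_sub (P - C c) P₀).trans (max_le d1 (hd.trans d1))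
    by_contra h
    have : k = 0 ∨ k = 1 := by omega
    rcases this with rfl | rfl
    · exact main c P₀ 0 0 (by simp) (by simp) h0 (by rw [← e]; simp)
    · rw [Fin.sum_univ_one] at e
      obtain ⟨⟨l, hl, el⟩, -⟩ := hR 0
      obtain ⟨a, b, ha, hb, f⟩ := two l hl (by rw [el, e]; exact d2)
      exact main c P₀ a b ha hb h0 (by rw [← e, ← el, f])

end Pool.Agent.Results.MP_d05de0_co.Three
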